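import Pool.Agent.H992.PM.JDefs

/-!
# JM/JCLS: weighted convergence for one class (helper969, for project JM of helper992)

Adapted from `helper323_SG_CLS.lean` and `helper253_SG_JDIFF.lean`.
-/

set_option autoImplicit false
open MeasureTheory Filter Topology Complex ProbabilityTheory
open scoped ContDiff ENNReal

namespace Pool.Agent.H969.JM

open Pool.Agent.W745.RW (TF)
open Pool.Agent.N661.BR (J0 MW lin shift IsStationary IsErgodic IsRandomWave meas_eval meas_shift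
  meas_W)
open Pool.Agent.Y265.RW (sy rr)
open Pool.Agent.N814.BHM
open Pool.Agent.N814.BHASM
open Pool.Agent.H992.LB
open Pool.Agent.H992.SF
open Pool.Agent.H992.PM (WBd JConv S_JCLS)

namespace JCLS

theorem prob_pr (d : ℕ) (γ : Measure MW) [IsProbabilityMeasure γ] :
    IsProbabilityMeasure (pr d γ) := by
  unfold pr
  infer_instance

theorem eJ_norm {d : ℕ} (τ : Fin d → ℂ →₀ ℝ) (F : Fin d → MW) : ‖eJ τ F‖ = 1 := by
  unfold eJ
  rw [norm_prod]
  exact Finset.prod_eq_one fun i _ => eγ_norm _ _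

theorem eJ_meas {d : ℕ} (τ : Fin d → ℂ →₀ ℝ) : Measurable (eJ τ) := by
  unfold eJ
  exact Finset.measurable_fun_prod _ fun i _ => (eγ_meas (τ i)).comp (measurable_pi_apply i)

theorem eXJ_norm {d : ℕ} (lam : Fin d → ℝ) (u : Fin d → ℂ → ℝ) (τ : Fin d → ℂ →₀ ℝ)
    (p : ℂ × (ℝ × Bool)) : ‖eXJ lam u τ p‖ = 1 := by
  unfold eXJ
  rw [norm_prod]
  exact Finset.prod_eq_one fun i _ => eX_norm _ _ _ _

theorem eXJ_zero {d : ℕ} (lam : Fin d → ℝ) (u : Fin d → ℂ → ℝ) (p : ℂ × (ℝ × Bool)) :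
    eXJ lam u 0 p = 1 := by
  unfold eXJ
  refine Finset.prod_eq_one fun i _ => ?_
  unfold eX SX
  simp

theorem eJ_zero {d : ℕ} (F : Fin d → MW) : eJ (0 : Fin d → ℂ →₀ ℝ) F = 1 := by
  unfold eJ
  refine Finset.prod_eq_one fun i _ => ?_
  unfold eγ val
  simp

/-- the mean of the modulus of the difference of two exponentials -/
theorem eX_int {Ω : Set ℂ} {lam : ℕ → ℝ} {u : ℕ → ℂ → ℝ} (H : Hyp Ω lam u) (τ τ' : ℂ →₀ ℝ)
    {ε : ℝ} (hε : 0 < ε) : ∀ᶠ n in atTop,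
      ∫ p, ‖eX (lam n) (u n) τ p - eX (lam n) (u n) τ' p‖ ∂(P Ω) ≤ √(nn (τ - τ')) + ε := by
  have := probP H
  obtain ⟨φ, hφ, hφ1⟩ := exists_wt H
  obtain ⟨i, hi⟩ := (hφ1.eventually (lt_mem_nhds (show 1 - ε / 4 < 1 by linarith))).exists
  rw [← fstP H] at hi
  obtain ⟨hfi, hle, hnn⟩ := fst_le H (hφ i)
  set A : ℝ := √(nn (τ - τ')) + ε / 2 with hA
  have hA0 : 0 < A := by positivity
  have h1 : nn (τ - τ') * ∫ p, φ i p.1 ∂(P Ω) < A ^ 2 := by
    calc nn (τ - τ') * ∫ p, φ i p.1 ∂(P Ω) ≤ nn (τ - τ') * 1 := by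
          gcongr
          exact nn_nonneg _
      _ = √(nn (τ - τ')) ^ 2 := by rw [mul_one, Real.sq_sqrt (nn_nonneg _)]
      _ < A ^ 2 := by
          apply pow_lt_pow_left₀ _ (Real.sqrt_nonneg _) two_ne_zero
          rw [hA]
          linarith
  have hsm : ∀ᶠ n in atTop, ∀ j, 1 / √(lam n) * ‖pt (τ - τ') j‖ < 1 :=
    Filter.eventually_all.2 fun j => small H _
  filter_upwards [(iso_SX H (hφ i) (τ - τ')).eventually (gt_mem_nhds h1), hsm] with n hn hn2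
  have hm : Measurable fun p : ℂ × (ℝ × Bool) => φ i p.1 :=
    (hφ i).tf.1.continuous.measurable.comp measurable_fst
  have hme : Measurable fun p =>
      ((‖eX (lam n) (u n) τ p - eX (lam n) (u n) τ' p‖ : ℝ) : ℂ) :=
    Complex.measurable_ofReal.comp ((eX_meas (H.sm n) τ).sub (eX_meas (H.sm n) τ')).norm
  have e1 : ∫ p, ‖eX (lam n) (u n) τ p - eX (lam n) (u n) τ' p‖ ∂(P Ω) =
      ‖∫ p, ((‖eX (lam n) (u n) τ p - eX (lam n) (u n) τ' p‖ : ℝ) : ℂ) ∂(P Ω)‖ := by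
    rw [integral_complex_ofReal, Complex.norm_real, Real.norm_eq_abs,
      abs_of_nonneg (integral_nonneg fun p => norm_nonneg _)]
  rw [e1]
  refine (split_bd H (hφ i) hme fun p => ?_).trans ?_
  · rw [Complex.norm_real, Real.norm_eq_abs, abs_of_nonneg (norm_nonneg _)]
    refine (norm_sub_le _ _).trans ?_
    rw [eX_norm, eX_norm]
    norm_num
  have hsi : Integrable (fun p => φ i p.1 * ‖SX (lam n) (u n) (τ - τ') p‖ ^ 2) (P Ω) := by
    have := sumInt H (hφ i) n (fun j => (((τ - τ') (pt (τ - τ') j) : ℝ) : ℂ)) (fun _ => 0)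
      (pt (τ - τ')) hn2
    refine this.congr (Eventually.of_forall fun p => ?_)
    simp only [SX_pt]
  have e2 : ‖∫ p, (φ i p.1 : ℂ) *
      ((‖eX (lam n) (u n) τ p - eX (lam n) (u n) τ' p‖ : ℝ) : ℂ) ∂(P Ω)‖ ≤ A := by
    have e3 : ‖∫ p, (φ i p.1 : ℂ) *
        ((‖eX (lam n) (u n) τ p - eX (lam n) (u n) τ' p‖ : ℝ) : ℂ) ∂(P Ω)‖ ≤
        ∫ p, (A / 2 * φ i p.1 + 1 / (2 * A) * (φ i p.1 * ‖SX (lam n) (u n) (τ - τ') p‖ ^ 2))
          ∂(P Ω) := by
      refine norm_integral_le_of_norm_le ((hfi.const_mul _).add (hsi.const_mul _))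
        (Eventually.of_forall fun p => ?_)
      rw [norm_mul, Complex.norm_real, Real.norm_eq_abs, abs_of_nonneg ((hφ i).mem _).1,
        Complex.norm_real, Real.norm_eq_abs, abs_of_nonneg (norm_nonneg _)]
      have e4 := eX_sub (lam n) (u n) τ τ' p
      set s := ‖SX (lam n) (u n) (τ - τ') p‖
      have e5 : s ≤ A / 2 + 1 / (2 * A) * s ^ 2 := by
        have : 0 ≤ 1 / (2 * A) * (s - A) ^ 2 := by positivity
        have e6 : 1 / (2 * A) * (s - A) ^ 2 = A / 2 + 1 / (2 * A) * s ^ 2 - s := by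
          field_simp
          ring
        linarith
      calc φ i p.1 * ‖eX (lam n) (u n) τ p - eX (lam n) (u n) τ' p‖
          ≤ φ i p.1 * (A / 2 + 1 / (2 * A) * s ^ 2) :=
            mul_le_mul_of_nonneg_left (e4.trans e5) ((hφ i).mem _).1
        _ = A / 2 * φ i p.1 + 1 / (2 * A) * (φ i p.1 * s ^ 2) := by ring
    rw [integral_add (hfi.const_mul _) (hsi.const_mul _), integral_const_mul,
      integral_const_mul] at e3
    calc _ ≤ A / 2 * ∫ p, φ i p.1 ∂(P Ω) +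
          1 / (2 * A) * ∫ p, φ i p.1 * ‖SX (lam n) (u n) (τ - τ') p‖ ^ 2 ∂(P Ω) := e3
      _ ≤ A / 2 * 1 + 1 / (2 * A) * A ^ 2 := by gcongr
      _ = A := by
          field_simp
          ring
  rw [hA] at e2
  linarith

/-- products of numbers of modulus at most one -/
theorem prod_diff {ι : Type*} (s : Finset ι) (a b : ι → ℂ) (ha : ∀ i, ‖a i‖ ≤ 1)
    (hb : ∀ i, ‖b i‖ ≤ 1) : ‖∏ i ∈ s, a i - ∏ i ∈ s, b i‖ ≤ ∑ i ∈ s, ‖a i - b i‖ := by
  classical
  induction s using Finset.induction_on with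
  | empty => simp
  | insert j s hj ih =>
    rw [Finset.prod_insert hj, Finset.prod_insert hj, Finset.sum_insert hj]
    have e1 : a j * ∏ i ∈ s, a i - b j * ∏ i ∈ s, b i =
        (a j - b j) * ∏ i ∈ s, a i + b j * (∏ i ∈ s, a i - ∏ i ∈ s, b i) := by ring
    rw [e1]
    refine (norm_add_le _ _).trans ?_
    rw [norm_mul, norm_mul]
    have h1 : ‖∏ i ∈ s, a i‖ ≤ 1 := by
      rw [norm_prod]
      exact Finset.prod_le_one (fun i _ => norm_nonneg _) fun i _ => ha i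
    have h2 : ‖a j - b j‖ * ‖∏ i ∈ s, a i‖ ≤ ‖a j - b j‖ :=
      mul_le_of_le_one_right (norm_nonneg _) h1
    have h3 : ‖b j‖ * ‖∏ i ∈ s, a i - ∏ i ∈ s, b i‖ ≤ ∑ i ∈ s, ‖a i - b i‖ :=
      (mul_le_of_le_one_left (norm_nonneg _) (hb j)).trans ih
    exact add_le_add h2 h3

theorem eXJ_int {d : ℕ} {Ω : Set ℂ} {lam : Fin d → ℕ → ℝ} {u : Fin d → ℕ → ℂ → ℝ}
    [IsProbabilityMeasure (P Ω)] (H : ∀ i, Hyp Ω (lam i) (u i)) (n : ℕ) (τ : Fin d → ℂ →₀ ℝ) :
    Integrable (fun p => eXJ (fun i => lam i n) (fun i => u i n) τ p) (P Ω) := by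
  have hm : Measurable fun p => eXJ (fun i => lam i n) (fun i => u i n) τ p := by
    unfold eXJ
    exact Finset.measurable_fun_prod _ fun i _ => eX_meas ((H i).sm n) (τ i)
  refine Integrable.of_bound hm.aestronglyMeasurable 1 (Eventually.of_forall fun p => ?_)
  unfold eXJ
  rw [norm_prod]
  exact Finset.prod_le_one (fun i _ => norm_nonneg _) fun i _ => (eX_norm _ _ _ p).le

/-- a test function is bounded -/
theorem tf_bdd {Ω : Set ℂ} {ψ : ℂ → ℝ} (hψ : TF Ω ψ) : ∃ M : ℝ, 1 ≤ M ∧ ∀ z, |ψ z| ≤ M := by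
  obtain ⟨M, hM⟩ := hψ.2.1.exists_bound_of_continuous hψ.1.continuous
  refine ⟨max M 1, le_max_right _ _, fun z => ?_⟩
  have h := hM z
  rw [Real.norm_eq_abs] at h
  exact h.trans (le_max_left _ _)

/-- **Continuity in the parameters**, with a weight. -/
theorem wdiff {d : ℕ} {Ω : Set ℂ} {lam : Fin d → ℕ → ℝ} {u : Fin d → ℕ → ℂ → ℝ} (hd : 0 < d)
    (H : ∀ i, Hyp Ω (lam i) (u i)) {ψ : ℂ → ℝ} (hψ : Continuous ψ) {M : ℝ} (hM0 : 0 ≤ M)
    (hM : ∀ z, |ψ z| ≤ M) (τ τ' : Fin d → ℂ →₀ ℝ) (ε : ℝ) (hε : 0 < ε) : ∀ᶠ n in atTop,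
    ‖(∫ p, (ψ p.1 : ℂ) * eXJ (fun i => lam i n) (fun i => u i n) τ p ∂(P Ω)) -
      ∫ p, (ψ p.1 : ℂ) * eXJ (fun i => lam i n) (fun i => u i n) τ' p ∂(P Ω)‖ ≤
      M * (∑ i, √(nn (τ i - τ' i)) + ε) := by
  have := probP (H ⟨0, hd⟩)
  have hd' : (0 : ℝ) < (d : ℝ) + 1 := by positivity
  have hε' : 0 < ε / ((d : ℝ) + 1) := by positivity
  have hall : ∀ᶠ n in atTop, ∀ i : Fin d,
      ∫ p, ‖eX (lam i n) (u i n) (τ i) p - eX (lam i n) (u i n) (τ' i) p‖ ∂(P Ω) ≤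
        √(nn (τ i - τ' i)) + ε / ((d : ℝ) + 1) :=
    Filter.eventually_all.2 fun i => eX_int (H i) (τ i) (τ' i) hε'
  filter_upwards [hall] with n hn
  have hI : ∀ i : Fin d, Integrable
      (fun p => ‖eX (lam i n) (u i n) (τ i) p - eX (lam i n) (u i n) (τ' i) p‖) (P Ω) := by
    intro i
    refine Integrable.of_bound (((eX_meas ((H i).sm n) (τ i)).sub
      (eX_meas ((H i).sm n) (τ' i))).norm).aestronglyMeasurable 2
      (Eventually.of_forall fun p => ?_)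
    rw [Real.norm_eq_abs, abs_of_nonneg (norm_nonneg _)]
    refine (norm_sub_le _ _).trans ?_
    rw [eX_norm, eX_norm]
    norm_num
  have hψn : ∀ p : ℂ × (ℝ × Bool), ‖(ψ p.1 : ℂ)‖ ≤ M := by
    intro p
    rw [Complex.norm_real, Real.norm_eq_abs]
    exact hM _
  have hψm : AEStronglyMeasurable (fun p : ℂ × (ℝ × Bool) => (ψ p.1 : ℂ)) (P Ω) :=
    (Complex.measurable_ofReal.comp (hψ.measurable.comp measurable_fst)).aestronglyMeasurable
  have hw : ∀ σ : Fin d → ℂ →₀ ℝ, Integrable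
      (fun p => (ψ p.1 : ℂ) * eXJ (fun i => lam i n) (fun i => u i n) σ p) (P Ω) := fun σ =>
    (eXJ_int H n σ).bdd_mul hψm (Eventually.of_forall hψn)
  rw [← integral_sub (hw τ) (hw τ')]
  have e1 : ‖∫ p, ((ψ p.1 : ℂ) * eXJ (fun i => lam i n) (fun i => u i n) τ p -
      (ψ p.1 : ℂ) * eXJ (fun i => lam i n) (fun i => u i n) τ' p) ∂(P Ω)‖ ≤
      ∫ p, M * ∑ i, ‖eX (lam i n) (u i n) (τ i) p - eX (lam i n) (u i n) (τ' i) p‖ ∂(P Ω) := by
    refine norm_integral_le_of_norm_le ((integrable_finset_sum _ fun i _ => hI i).const_mul M)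
      (Eventually.of_forall fun p => ?_)
    rw [← mul_sub, norm_mul]
    refine mul_le_mul (hψn p) ?_ (norm_nonneg _) hM0
    unfold eXJ
    exact prod_diff _ _ _ (fun i => (eX_norm _ _ _ p).le) fun i => (eX_norm _ _ _ p).le
  rw [integral_const_mul, integral_finset_sum _ fun i _ => hI i] at e1
  refine e1.trans (mul_le_mul_of_nonneg_left ?_ hM0)
  calc ∑ i, ∫ p, ‖eX (lam i n) (u i n) (τ i) p - eX (lam i n) (u i n) (τ' i) p‖ ∂(P Ω)
      ≤ ∑ i : Fin d, (√(nn (τ i - τ' i)) + ε / ((d : ℝ) + 1)) :=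
        Finset.sum_le_sum fun i _ => hn i
    _ = ∑ i, √(nn (τ i - τ' i)) + (d : ℝ) * (ε / ((d : ℝ) + 1)) := by
        rw [Finset.sum_add_distrib, Finset.sum_const, Finset.card_univ, Fintype.card_fin,
          nsmul_eq_mul]
    _ ≤ ∑ i, √(nn (τ i - τ' i)) + ε := by
        have : (d : ℝ) * (ε / ((d : ℝ) + 1)) ≤ ε := by
          rw [← mul_div_assoc, div_le_iff₀ hd']
          nlinarith
        linarith

end JCLS

open JCLS in
/-- **JM/JCLS** -/
theorem jcls (h1 : S_RZ) (h2 : S_CORE) (h3 : S_EXT) : S_JCLS := by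
  intro d Ω lam u hd H hS γ hγp hγ ψ hψ _ U hU hne A hBd τ hτ
  have hPr := probP (H ⟨0, hd⟩)
  have hpr := prob_pr d γ
  obtain ⟨M, hM1, hM⟩ := tf_bdd hψ
  have hM0 : 0 < M := lt_of_lt_of_le one_pos hM1
  have hMc : (M : ℂ) ≠ 0 := by
    rw [Ne, Complex.ofReal_eq_zero]
    exact hM0.ne'
  rw [tendsto_iff_ultrafilter]
  intro g hg
  set Gn : (Fin d → ℂ →₀ ℝ) → ℕ → ℂ := fun τ n =>
    ∫ p, (ψ p.1 : ℂ) * eXJ (fun i => lam i n) (fun i => u i n) τ p ∂(P Ω) with hGn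
  have hGb : ∀ τ n, ‖Gn τ n‖ ≤ M := by
    intro τ n
    refine (norm_integral_le_of_norm_le (integrable_const M)
      (Eventually.of_forall fun p => ?_)).trans ?_
    · rw [norm_mul, eXJ_norm, mul_one, Complex.norm_real, Real.norm_eq_abs]
      exact hM _
    · simp
  -- the limits along the ultrafilter
  have hlim : ∀ τ : Fin d → ℂ →₀ ℝ, ∃ L : ℂ, Tendsto (Gn τ) g (𝓝 L) := by
    intro τ
    have h1 : (g.map (Gn τ) : Filter ℂ) ≤ 𝓟 (Metric.closedBall (0:ℂ) M) := by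
      rw [Filter.le_principal_iff, Ultrafilter.coe_map, Filter.mem_map]
      refine Filter.univ_mem' fun n => ?_
      rw [Set.mem_preimage, mem_closedBall_zero_iff]
      exact hGb τ n
    obtain ⟨L, -, hL⟩ := (isCompact_closedBall (0:ℂ) M).ultrafilter_le_nhds _ h1
    exact ⟨L, hL⟩
  choose L hL using hlim
  have hLd : ∀ τ τ', ‖L τ - L τ'‖ ≤ M * ∑ i, √(nn (τ i - τ' i)) := by
    intro τ τ'
    refine le_of_forall_pos_le_add fun ε hε => ?_
    have h5 := le_of_tendsto ((hL τ).sub (hL τ')).norm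
      (hg (wdiff hd H hψ.1.continuous hM0.le hM τ τ' (ε / M) (div_pos hε hM0)))
    have h6 : M * (∑ i, √(nn (τ i - τ' i)) + ε / M) = M * ∑ i, √(nn (τ i - τ' i)) + ε := by
      field_simp
    rw [h6] at h5
    exact h5
  have hL0 : L 0 = ∫ p : ℂ × (ℝ × Bool), (ψ p.1 : ℂ) ∂(P Ω) := by
    refine tendsto_nhds_unique (hL 0) ?_
    have : ∀ n, Gn 0 n = ∫ p : ℂ × (ℝ × Bool), (ψ p.1 : ℂ) ∂(P Ω) := by
      intro n
      refine integral_congr_ae (Eventually.of_forall fun p => ?_)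
      show (ψ p.1 : ℂ) * eXJ (fun i => lam i n) (fun i => u i n) 0 p = (ψ p.1 : ℂ)
      rw [eXJ_zero, mul_one]
    exact tendsto_const_nhds.congr fun n => (this n).symm
  obtain ⟨C, hC⟩ := hBd
  obtain ⟨h, hh, hrep⟩ := h1 (Fin d → MW) inferInstance (pr d γ) hpr
    {τ : Fin d → ℂ →₀ ℝ // On A τ ∧ In U τ} (fun k => eJ k.1) (fun k => L k.1) C
    (fun k => eJ_meas k.1) (fun k x => (eJ_norm k.1 x).le) (by
      intro n c τ
      have h5 : Tendsto (fun l => ‖∑ m, c m * Gn (τ m).1 l‖ ^ 2) g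
          (𝓝 (‖∑ m, c m * L (τ m).1‖ ^ 2)) := by
        refine Tendsto.pow (Tendsto.norm ?_) 2
        exact tendsto_finsetSum _ fun m _ => (hL _).const_mul _
      refine le_of_forall_pos_le_add fun ε hε => ?_
      exact le_of_tendsto h5 (hg (hC n c (fun m => (τ m).1) (fun m => (τ m).2.1)
        (fun m => (τ m).2.2) ε hε)))
  have hscal : ∀ σ : Fin d → ℂ →₀ ℝ,
      ∫ F, (starRingEnd ℂ) ((M : ℂ)⁻¹ * h F) * eJ σ F ∂(pr d γ) =
        (M : ℂ)⁻¹ * ∫ F, (starRingEnd ℂ) (h F) * eJ σ F ∂(pr d γ) := by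
    intro σ
    rw [← integral_const_mul]
    refine integral_congr_ae (Eventually.of_forall fun F => ?_)
    show (starRingEnd ℂ) ((M : ℂ)⁻¹ * h F) * eJ σ F =
      (M : ℂ)⁻¹ * ((starRingEnd ℂ) (h F) * eJ σ F)
    rw [map_mul, map_inv₀, Complex.conj_ofReal, mul_assoc]
  have hall : ∀ σ, On A σ → L σ = ∫ F, (starRingEnd ℂ) (h F) * eJ σ F ∂(pr d γ) := by
    intro σ hσ
    have h5 := h3 γ hγp hγ d U hU hne A (fun F => (M : ℂ)⁻¹ * h F) (hh.const_mul _)
      (fun σ => (M : ℂ)⁻¹ * L σ) (by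
        intro τ τ'
        rw [← mul_sub, norm_mul, norm_inv, Complex.norm_real, Real.norm_eq_abs,
          abs_of_pos hM0]
        calc M⁻¹ * ‖L τ - L τ'‖ ≤ M⁻¹ * (M * ∑ i, √(nn (τ i - τ' i))) :=
              mul_le_mul_of_nonneg_left (hLd τ τ') (inv_nonneg.mpr hM0.le)
          _ = ∑ i, √(nn (τ i - τ' i)) := by
              rw [← mul_assoc, inv_mul_cancel₀ hM0.ne', one_mul]) (by
        intro τ h6 h7
        show (M : ℂ)⁻¹ * L τ = _
        rw [hscal, hrep ⟨τ, h6, h7⟩]) σ hσ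
    rw [hscal] at h5
    exact mul_left_cancel₀ (inv_ne_zero hMc) h5
  have hcore := h2 d Ω lam u H hS γ hγp hγ A ∅ (fun i _ j hj => absurd hj (Finset.notMem_empty j))
    ψ (Or.inl hψ) 0 (fun i _ => rfl) g hg h hh (by
      intro τ hτ
      rw [← hall τ hτ]
      refine (hL τ).congr fun n => ?_
      rw [hGn]
      refine integral_congr_ae (Eventually.of_forall fun p => ?_)
      show (ψ p.1 : ℂ) * eXJ (fun i => lam i n) (fun i => u i n) τ p =
        (ψ p.1 : ℂ) * eXJ (fun i => lam i n) (fun i => u i n) (fun i => τ i + 0) p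
      simp only [add_zero]) τ hτ
  have hone : ∫ F, (starRingEnd ℂ) (h F) ∂(pr d γ) =
      ∫ p : ℂ × (ℝ × Bool), (ψ p.1 : ℂ) ∂(P Ω) := by
    rw [← hL0, hall 0 (fun i _ => rfl)]
    refine integral_congr_ae (Eventually.of_forall fun F => ?_)
    simp only [eJ_zero, mul_one]
  rw [hone] at hcore
  rw [← hcore, ← hall τ hτ]
  exact hL τ

end Pool.Agent.H969.JM
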